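import Pool.Agent.helper83.FI4B.Spec

/-!
# Project fi4, version FI4+ (MP_baa4d7_al), row BH2

`2 |I| < p` implies `Hy2`, and `|I| + Ω(|I|) + 1 < p` implies `Hy2` for abelian `I`.
-/

set_option autoImplicit false

namespace Pool.Agent.FI4B

open Pool.Agent.helper58.DC Pool.Agent.DI Pool.Agent.GR Pool.Agent.OB Pool.Agent.DR Pool.Agent.FI Pool.Agent.FI3 Pool.Agent.FI4

theorem BH2 (hBCV : BCV_stmt) (hBAP : BAP_stmt) (hLOA : LOA_stmt) : BH2_stmt := by
  intro p M hM G _ _ D x θ χ hR
  have hpg : IsPGroup p D := hR.dfa.pgrp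
  refine ⟨fun h => ?_, fun hab h => ?_⟩
  · obtain ⟨S, hS1, hS2, hS3⟩ := hBCV p M hM.pr G D θ hR.th hpg
    exact ⟨S, hS1, hS2, by omega⟩
  · have hbet := (hLOA p M hM G D x θ χ hR).bet
    have h0 : (cz D).relIndex (TT M D θ) = iI M D θ := rfl
    have hnz : iI M D θ ≠ 0 := by
      intro h1
      rw [h0, h1] at hbet
      exact hbet (dvd_zero p)
    have hle : cz D ≤ TT M D θ := cz_le_TT
    have hmem : ∀ t : G, (∀ d ∈ D, t * d = d * t) ↔ t ∈ cz D := by
      intro t
      constructor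
      · intro h1
        show t ∈ Subgroup.centralizer (D : Set G)
        rw [Subgroup.mem_centralizer_iff]
        intro d hd
        exact (h1 d hd).symm
      · intro h1 d hd
        have h2 : t ∈ Subgroup.centralizer (D : Set G) := h1
        exact (Subgroup.mem_centralizer_iff.1 h2 d hd).symm
    obtain ⟨S, hS1, hS2, hS3⟩ := hBAP p hM.pr G (cz D) D (TT M D θ) hpg hR.com hle
      (fun t ht d hd => (Subgroup.mem_normalizer_iff.1 ht.1 d).1 hd)
      (fun t _ => hmem t) hbet hab
    refine ⟨S, hS1, fun u hu hn => hS2 u hu ?_, ?_⟩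
    · by_contra hcon
      push Not at hcon
      refine hn ⟨hu, fun t ht h1 => ?_⟩
      by_contra h2
      exact hcon t ht h2 h1
    · rw [h0] at hS3
      omega

end Pool.Agent.FI4B
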